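import Pool.Agent.W96.CL.Stm
import Pool.Agent.H906R3.K6.A2b

/-!
# CL-DEREQ: derivatives of the integral equations
-/

set_option autoImplicit false

open Polynomial Filter Topology MeasureTheory

namespace W96CL

namespace DEREQ

theorem nice_of_ev {f : ℝ → ℝ} {c : ℝ} (h : Ev f c) : H906K.Nice f ∧ ∃ K, ∀ u, |f u| ≤ K := by
  obtain ⟨K, hK⟩ := h.dec
  have hd := h.diff
  have h1 : Differentiable ℝ f := hd.differentiable (by norm_num)
  have h2 : Continuous (deriv f) := hd.continuous_deriv (by norm_num)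
  have hK0 : 0 ≤ K := by
    have := (abs_nonneg _).trans (hK 0).1
    simpa using this
  refine ⟨⟨h1, h2, ?_⟩, |c| + K, fun u => ?_⟩
  · have hi : Integrable (fun u : ℝ => K * Real.exp (-|u|)) := by
      have h0 : Integrable (fun u : ℝ => Real.exp (-|u|)) := by
        have := H906K.a2a_exp_integrable.comp_mul_left' (g := fun u : ℝ => Real.exp (-(3 * |u| / 2)))
          (R := 2 / 3) (by norm_num)
        refine this.congr (Eventually.of_forall fun u => ?_)
        show Real.exp (-(3 * |2 / 3 * u| / 2)) = Real.exp (-|u|)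
        rw [abs_mul, abs_of_pos (by norm_num : (0:ℝ) < 2 / 3)]
        congr 1
        ring
      exact h0.const_mul K
    refine hi.mono' h2.aestronglyMeasurable ?_
    exact Eventually.of_forall fun u => by rw [Real.norm_eq_abs]; exact (hK u).2
  · have := (hK u).1
    have h3 : Real.exp (-|u|) ≤ 1 := by
      rw [Real.exp_le_one_iff]; have := abs_nonneg u; linarith
    have h4 : |f u| ≤ |f u - c| + |c| := by
      have := abs_add_le (f u - c) c
      simpa using this
    nlinarith

theorem conv {f : ℝ → ℝ} {c : ℝ} (h : Ev f c) (l : ℝ) :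
    HasDerivAt (fun l => ∫ u : ℝ, kk (l - u) * f u) (∫ u : ℝ, kk (l - u) * deriv f u) l := by
  obtain ⟨h1, K, hK⟩ := nice_of_ev h
  have h2 := H906K.kk_conv_nice f K h1 hK
  have h3 := (h2.1.1 l).hasDerivAt
  rw [h2.2 l] at h3
  exact h3

theorem log_tanh (u : ℝ) (hu : u ≠ 0) :
    HasDerivAt (fun u : ℝ => Real.log (Real.tanh (3 * u / 4))) (3 / 2 / Real.sinh (3 * u / 2)) u := by
  have h1 : HasDerivAt (fun u : ℝ => 3 * u / 4) (3 / 4) u := by
    have := ((hasDerivAt_id u).const_mul 3).div_const 4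
    simpa using this
  have hs : Real.sinh (3 * u / 4) ≠ 0 := by
    rw [Ne, Real.sinh_eq_zero]
    intro h
    apply hu
    linarith
  have hc := (Real.cosh_pos (3 * u / 4)).ne'
  have h2 := (h1.sinh.log hs).sub (h1.cosh.log hc)
  have h3 : (fun u : ℝ => Real.log (Real.tanh (3 * u / 4))) =ᶠ[𝓝 u]
      (fun u : ℝ => Real.log (Real.sinh (3 * u / 4)) - Real.log (Real.cosh (3 * u / 4))) := by
    have : ∀ᶠ x : ℝ in 𝓝 u, x ≠ 0 := isOpen_ne.mem_nhds hu
    filter_upwards [this] with x hx
    rw [Real.tanh_eq_sinh_div_cosh, Real.log_div _ (Real.cosh_pos _).ne']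
    rw [Ne, Real.sinh_eq_zero]
    intro h
    apply hx
    linarith
  refine (h2.congr_of_eventuallyEq h3).congr_deriv ?_
  have h4 : Real.sinh (3 * u / 2) = 2 * Real.sinh (3 * u / 4) * Real.cosh (3 * u / 4) := by
    rw [← Real.sinh_two_mul]; congr 1; ring
  have h5 := Real.cosh_sq (3 * u / 4)
  rw [h4]
  field_simp
  linarith

theorem log_Rr (θ u : ℝ) (hu : 0 < u) :
    HasDerivAt (fun u : ℝ => Real.log (Rr θ u)) (3 * Real.cos (3 * θ / 2) * Real.sinh (3 * u / 2) /
      (Real.sinh (3 * u / 2) ^ 2 + Real.sin (3 * θ / 2) ^ 2)) u := by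
  have h1 : HasDerivAt (fun u : ℝ => 3 * u / 2) (3 / 2) u := by
    have := ((hasDerivAt_id u).const_mul 3).div_const 2
    simpa using this
  have hC1 := Real.cos_le_one (3 * θ / 2)
  have hC2 := Real.neg_one_le_cos (3 * θ / 2)
  have hch : ∀ x : ℝ, 0 < x → 1 < Real.cosh (3 * x / 2) := fun x hx =>
    Real.one_lt_cosh.2 (by positivity)
  have p1 : ∀ x : ℝ, 0 < x → 0 < Real.cosh (3 * x / 2) - Real.cos (3 * θ / 2) := fun x hx => by
    have := hch x hx; linarith
  have p2 : ∀ x : ℝ, 0 < x → 0 < Real.cosh (3 * x / 2) + Real.cos (3 * θ / 2) := fun x hx => by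
    have := hch x hx; linarith
  have h2 := ((h1.cosh.sub_const (Real.cos (3 * θ / 2))).log (p1 u hu).ne').sub
    ((h1.cosh.add_const (Real.cos (3 * θ / 2))).log (p2 u hu).ne')
  have h3 : (fun u : ℝ => Real.log (Rr θ u)) =ᶠ[𝓝 u]
      (fun u : ℝ => Real.log (Real.cosh (3 * u / 2) - Real.cos (3 * θ / 2)) -
        Real.log (Real.cosh (3 * u / 2) + Real.cos (3 * θ / 2))) := by
    filter_upwards [Ioi_mem_nhds hu] with x hx
    unfold Rr
    rw [Real.log_div (p1 x hx).ne' (p2 x hx).ne']
  refine (h2.congr_of_eventuallyEq h3).congr_deriv ?_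
  have h5 := Real.cosh_sq (3 * u / 2)
  have h6 := Real.sin_sq_add_cos_sq (3 * θ / 2)
  have h7 : Real.sinh (3 * u / 2) ^ 2 + Real.sin (3 * θ / 2) ^ 2 =
      (Real.cosh (3 * u / 2) - Real.cos (3 * θ / 2)) *
        (Real.cosh (3 * u / 2) + Real.cos (3 * θ / 2)) := by
    nlinarith
  rw [h7]
  have q1 := (p1 u hu).ne'
  have q2 := (p2 u hu).ne'
  field_simp
  ring

end DEREQ

open DEREQ in
theorem cl_dereq (he : S_ev) : S_dereq := by
  intro n θ z0 s r lam H
  obtain ⟨hs, hr, _, _⟩ := he n θ z0 s r lam H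
  constructor
  · intro u hu
    have a1 : HasDerivAt (fun u => Real.log (r u)) (deriv r u / r u) u :=
      ((H.r_diff.differentiable (by norm_num) u).hasDerivAt).log (H.r_pos u hu).ne'
    have a2 := ((log_tanh u hu.ne').add ((log_Rr θ u hu).const_mul (n : ℝ))).add (conv hs u)
    have a3 : (fun u => Real.log (r u)) =ᶠ[𝓝 u] (fun u => Real.log (Real.tanh (3 * u / 4)) +
        n * Real.log (Rr θ u) + ∫ v : ℝ, kk (u - v) * Real.log (1 - s v)) := by
      filter_upwards [Ioi_mem_nhds hu] with x hx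
      exact H.rep_r x hx
    have a4 := a1.unique (a2.congr_of_eventuallyEq a3)
    rw [a4]
    unfold dr
    ring
  · intro u hu huz
    have hsu : s u ≠ 0 := by
      rcases lt_or_gt_of_ne huz with h | h
      · exact (H.s_pos u (by rw [abs_of_pos hu]; exact h)).ne'
      · exact (H.s_neg u (by rw [abs_of_pos hu]; exact h)).ne
    have a1 : HasDerivAt (fun u => Real.log (s u)) (deriv s u / s u) u :=
      ((H.s_diff.differentiable (by norm_num) u).hasDerivAt).log hsu
    have b1 : HasDerivAt (fun u : ℝ => Real.log (Real.tanh (3 * (u - z0) / 4)))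
        (3 / 2 / Real.sinh (3 * (u - z0) / 2)) u := by
      have := (log_tanh (u - z0) (sub_ne_zero.2 huz)).comp u ((hasDerivAt_id u).sub_const z0)
      simpa [Function.comp_def] using this
    have b2 : HasDerivAt (fun u : ℝ => Real.log (Real.tanh (3 * (u + z0) / 4)))
        (3 / 2 / Real.sinh (3 * (u + z0) / 2)) u := by
      have h0 := H.z0pos
      have := (log_tanh (u + z0) (by linarith)).comp u ((hasDerivAt_id u).add_const z0)
      simpa [Function.comp_def] using this
    have a2 := (b1.add b2).add (conv hr u)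
    have a3 : (fun u => Real.log (s u)) =ᶠ[𝓝 u] (fun u => Real.log (Real.tanh (3 * (u - z0) / 4))
        + Real.log (Real.tanh (3 * (u + z0) / 4)) +
        ∫ v : ℝ, kk (u - v) * Real.log (1 + r v ^ 2)) := by
      have h2 : ∀ᶠ x : ℝ in 𝓝 u, x ≠ z0 := isOpen_ne.mem_nhds huz
      filter_upwards [Ioi_mem_nhds hu, h2] with x hx hxz
      have := H.rep_s x (le_of_lt hx) hxz
      rw [Real.log_abs, Real.log_abs] at this
      exact this
    have a4 := a1.unique (a2.congr_of_eventuallyEq a3)
    rw [a4]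
    unfold ds
    ring

end W96CL
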