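import Pool.Agent.W96.CL.Stm

/-!
# CL-FAM: assembly of the family of eigenvalues
-/

set_option autoImplicit false

open Polynomial Filter Topology MeasureTheory

namespace W96CL

namespace FAM

/-! ### continuity of the double row matrix in the inhomogeneity -/

section top
variable {A : Type} [Ring A] [Algebra ℂ A] [TopologicalSpace A] [IsTopologicalRing A]
  [ContinuousSMul ℂ A]

theorem cont_XX (e : ℕ → A) (i : ℕ)
    (f : ℂ → ℂ) (s : Set ℂ) (hf : ContinuousOn f s) :
    ContinuousOn (fun z => XX e i (f z)) s := by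
  have h1 : ContinuousOn (fun z => wF (f z)) s := by unfold wF; fun_prop
  have h2 : ContinuousOn (fun z => wT (f z)) s := by unfold wT; fun_prop
  exact (h1.smul continuousOn_const).add (h2.smul continuousOn_const)

theorem cont_BB (e : ℕ → A) (x : ℂ) (m : ℕ) :
    ∀ i, ContinuousOn (fun z => BB e x i (alt z m)) {z : ℂ | z ≠ 0} := by
  induction m with
  | zero => intro i; exact continuousOn_const (c := (1 : A))
  | succ m ih =>
    intro i
    have h1 : ContinuousOn (fun z : ℂ => x / z) {z : ℂ | z ≠ 0} :=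
      continuousOn_const.div continuousOn_id (fun z hz => hz)
    have h2 : ContinuousOn (fun z : ℂ => x * z) {z : ℂ | z ≠ 0} := by fun_prop
    have h3 : ContinuousOn (fun z : ℂ => x / z⁻¹) {z : ℂ | z ≠ 0} := by
      simp only [div_inv_eq_mul]; exact h2
    have h4 : ContinuousOn (fun z : ℂ => x * z⁻¹) {z : ℂ | z ≠ 0} := by
      simp only [← div_eq_mul_inv]; exact h1
    have k1 := cont_XX e i _ _ h1
    have k2 := cont_XX e i _ _ h2
    have k3 := cont_XX e (i + 1) _ _ h3
    have k4 := cont_XX e (i + 1) _ _ h4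
    have k5 := ih (i + 1 + 1)
    have k6 := (k3.mul k5).mul k4
    exact (k1.mul k6).mul k2

theorem cont_DD (e : ℕ → A) (x : ℂ) (m : ℕ) :
    ∀ i, ContinuousOn (fun z => DD e x i (alt z m)) {z : ℂ | z ≠ 0} := by
  induction m with
  | zero => intro i; exact continuousOn_const (c := (1 : A))
  | succ m ih =>
    intro i
    have h1 : ContinuousOn (fun z : ℂ => x / z) {z : ℂ | z ≠ 0} :=
      continuousOn_const.div continuousOn_id (fun z hz => hz)
    have h2 : ContinuousOn (fun z : ℂ => x * z) {z : ℂ | z ≠ 0} := by fun_prop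
    have h3 : ContinuousOn (fun z : ℂ => x / z⁻¹) {z : ℂ | z ≠ 0} := by
      simp only [div_inv_eq_mul]; exact h2
    have h4 : ContinuousOn (fun z : ℂ => x * z⁻¹) {z : ℂ | z ≠ 0} := by
      simp only [← div_eq_mul_inv]; exact h1
    have ht : ContinuousOn (fun z : ℂ => tau x z) {z : ℂ | z ≠ 0} := by
      unfold tau wT
      exact (continuousOn_const.add (continuousOn_const.mul h1)).mul
        (continuousOn_const.add (continuousOn_const.mul h2))
    have ht' : ContinuousOn (fun z : ℂ => tau x z⁻¹) {z : ℂ | z ≠ 0} := by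
      unfold tau wT
      exact (continuousOn_const.add (continuousOn_const.mul h3)).mul
        (continuousOn_const.add (continuousOn_const.mul h4))
    have hp : ContinuousOn (fun z : ℂ => ph1 x z) {z : ℂ | z ≠ 0} := by
      unfold ph1
      exact (continuousOn_const.add h1).mul (continuousOn_const.add h2)
    have hp' : ContinuousOn (fun z : ℂ => ph1 x z⁻¹) {z : ℂ | z ≠ 0} := by
      unfold ph1
      exact (continuousOn_const.add h3).mul (continuousOn_const.add h4)
    have k3 := cont_XX e (i + 1) _ _ h3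
    have k4 := cont_XX e (i + 1) _ _ h4
    have k3' := cont_XX e i _ _ h3
    have k4' := cont_XX e i _ _ h4
    have k5 := cont_BB e x m (i + 1)
    have k5' := cont_BB e x m (i + 1 + 1)
    have a1 : ContinuousOn (fun z => BB e x i (z⁻¹ :: alt z m)) {z : ℂ | z ≠ 0} :=
      (k3'.mul k5).mul k4'
    have a2 : ContinuousOn (fun z => DD e x (i + 1) (z⁻¹ :: alt z m)) {z : ℂ | z ≠ 0} :=
      ((hp'.sub ht').smul k5).add (ht'.smul (ih (i + 1 + 1)))
    exact ((hp.sub ht).smul a1).add (ht.smul a2)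

theorem cont_DDt (e : ℕ → A) (x : ℂ) (n : ℕ) :
    Continuous (fun θ : ℝ => DD e x 0 (alt (Complex.exp (θ * Complex.I)) n)) := by
  have h := cont_DD e x n 0
  rw [← continuousOn_univ]
  exact h.comp (f := fun θ : ℝ => Complex.exp (θ * Complex.I)) (by fun_prop)
    (fun θ _ => Complex.exp_ne_zero _)

end top

theorem cont_DDt' {S : Type} [Fintype S] [DecidableEq S] (e : ℕ → Matrix S S ℂ) (x : ℂ) (n : ℕ)
    (a b : S) :
    Continuous (fun θ : ℝ => DD e x 0 (alt (Complex.exp (θ * Complex.I)) n) a b) :=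
  (continuous_apply_apply a b).comp (cont_DDt e x n)

theorem exp_third : Complex.exp ((Real.pi / 3 : ℝ) * Complex.I) = uu := by
  rw [Complex.exp_mul_I, ← Complex.ofReal_cos, ← Complex.ofReal_sin, Real.cos_pi_div_three,
    Real.sin_pi_div_three]
  apply Complex.ext <;> simp [uu]

/-! ### the function `pp` -/

theorem sin_pos2 {θ : ℝ} (h0 : 0 < θ) (h1 : θ ≤ Real.pi / 3) : 0 < Real.sin (Real.pi / 3 + θ) := by
  have := Real.pi_pos
  exact Real.sin_pos_of_pos_of_lt_pi (by linarith) (by linarith)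

theorem cont_pp {θ : ℝ} (h0 : 0 < θ) (h1 : θ ≤ Real.pi / 3) : ContinuousAt pp θ := by
  unfold pp
  exact ContinuousAt.div (by fun_prop) (by fun_prop) (sin_pos2 h0 h1).ne'

theorem pp_end : pp (Real.pi / 3) = 0 := by
  unfold pp; simp

theorem aeval_real (t : ℝ[X]) (x : ℝ) : (aeval (x : ℂ) t).re = t.eval x := by
  have := Polynomial.aeval_algebraMap_apply ℂ x t
  rw [Complex.coe_algebraMap] at this
  rw [this]
  simp [Polynomial.aeval_def, Polynomial.eval₂_id]

/-- continuity of the coefficients from continuity of the values -/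
theorem coeff_cont (d : ℕ) (T : ℝ → ℝ[X]) (s : Set ℝ) (hd : ∀ θ ∈ s, (T θ).natDegree ≤ d)
    (hT : ∀ x : ℝ, ContinuousOn (fun θ => (T θ).eval x) s) (k : ℕ) :
    ContinuousOn (fun θ => (T θ).coeff k) s := by
  set S : Finset ℕ := Finset.range (d + 1) with hS
  have hinj : Set.InjOn (fun i : ℕ => (i : ℝ)) S := fun a _ b _ h => Nat.cast_injective h
  have h1 : ∀ θ ∈ s, (T θ).coeff k =
      ∑ i ∈ S, (T θ).eval (i : ℝ) * (Lagrange.basis S (fun i : ℕ => (i : ℝ)) i).coeff k := by
    intro θ hθ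
    have h2 : (T θ).degree < S.card := by
      rw [hS, Finset.card_range]
      refine lt_of_le_of_lt Polynomial.degree_le_natDegree ?_
      exact_mod_cast Nat.lt_succ_of_le (hd θ hθ)
    have h3 := Lagrange.eq_interpolate (v := fun i : ℕ => (i : ℝ)) hinj h2
    conv_lhs => rw [h3]
    rw [Lagrange.interpolate_apply, Polynomial.finsetSum_coeff]
    apply Finset.sum_congr rfl
    intro i _
    rw [Polynomial.coeff_C_mul]
  refine ContinuousOn.congr ?_ h1
  exact continuousOn_finsetSum _ fun i _ => (hT i).mul continuousOn_const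

end FAM

open FAM in
theorem cl_fam (hr : S_rep) (hpf : S_pf) (he : S_eig) (hrel : S_rel) (hch : S_chain)
    (hb : S_base) (hn : S_norm) (_hp : S_poly) : S_fam := by
  intro n h1n
  obtain ⟨v, L, hvL, hvc, hv0⟩ := hpf n h1n
  set base : ℝ[X] := C (-2) * (1 - X) ^ 2 * (1 + X + X ^ 2) ^ (2 * n - 1) with hbase
  have hpp : ∀ θ : ℝ, 0 < θ → θ < Real.pi / 3 → 0 < pp θ ∧ pp θ < 1 := fun θ h0 h1 =>
    ⟨(hn n θ h0 h1).1, (hn n θ h0 h1).2.1⟩
  have key : ∀ θ : ℝ, ∀ h : 0 < θ ∧ θ < Real.pi / 3, ∃ t : ℝ[X], t.natDegree ≤ 4 * n ∧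
      (∀ x : ℂ, (DD (EC n) x 0 (alt (Complex.exp (θ * Complex.I)) n)).mulVec
        (fun s => (v (pp θ) s : ℂ)) = aeval x t • (fun s => (v (pp θ) s : ℂ))) ∧
      aeval (Complex.exp ((Real.pi / 3 - θ : ℝ) * Complex.I)) t
        = (L (pp θ) : ℂ) * aeval (Complex.exp ((Real.pi / 3 - θ : ℝ) * Complex.I)) (phi n θ) := by
    intro θ h
    obtain ⟨p0, p1⟩ := hpp θ h.1 h.2
    obtain ⟨a1, a2, _, _, a3, a4⟩ := hvL (pp θ) p0 p1
    exact he n θ (v (pp θ)) (L (pp θ)) h1n h.1 h.2 a1 a2 a3 a4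
  classical
  let T : ℝ → ℝ[X] := fun θ => if h : 0 < θ ∧ θ < Real.pi / 3 then
    Classical.choose (key θ h) else base
  have hT : ∀ θ : ℝ, ∀ h : 0 < θ ∧ θ < Real.pi / 3, (T θ).natDegree ≤ 4 * n ∧
      (∀ x : ℂ, (DD (EC n) x 0 (alt (Complex.exp (θ * Complex.I)) n)).mulVec
        (fun s => (v (pp θ) s : ℂ)) = aeval x (T θ) • (fun s => (v (pp θ) s : ℂ))) ∧
      aeval (Complex.exp ((Real.pi / 3 - θ : ℝ) * Complex.I)) (T θ)
        = (L (pp θ) : ℂ) * aeval (Complex.exp ((Real.pi / 3 - θ : ℝ) * Complex.I)) (phi n θ) := by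
    intro θ h
    have : T θ = Classical.choose (key θ h) := by
      simp only [T]; rw [dif_pos h]
    rw [this]
    exact Classical.choose_spec (key θ h)
  have hTb : T (Real.pi / 3) = base := by
    simp only [T]; rw [dif_neg (fun h => lt_irrefl _ h.2)]
  have hpi := Real.pi_pos
  -- the vectors
  let w : ℝ → St n → ℝ := fun θ s => if θ < Real.pi / 3 then v (pp θ) s else
    if s = st0 n then 1 else 0
  have hw1 : ∀ θ, θ < Real.pi / 3 → w θ = v (pp θ) := fun θ h => by
    funext s; simp only [w]; rw [if_pos h]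
  have hw2 : w (Real.pi / 3) = fun s => if s = st0 n then 1 else 0 := by
    funext s; simp only [w]; rw [if_neg (lt_irrefl _)]
  have hmem : Set.Ioc 0 (Real.pi / 3) = insert (Real.pi / 3) (Set.Ioo 0 (Real.pi / 3)) :=
    (Set.Ioo_insert_right (by positivity)).symm
  have hwc : ∀ s, ContinuousOn (fun θ => w θ s) (Set.Ioc 0 (Real.pi / 3)) := by
    intro s θ hθ
    rcases hθ.2.eq_or_lt with h | h
    · rw [hmem, h, continuousWithinAt_insert_self]
      show Tendsto (fun θ => w θ s) (𝓝[Set.Ioo 0 (Real.pi / 3)] (Real.pi / 3)) (𝓝 (w _ s))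
      have h2 : Tendsto pp (𝓝[Set.Ioo 0 (Real.pi / 3)] (Real.pi / 3)) (𝓝[>] 0) := by
        rw [tendsto_nhdsWithin_iff]
        constructor
        · have := (cont_pp (θ := Real.pi / 3) (by positivity) le_rfl).tendsto
          rw [pp_end] at this
          exact this.mono_left nhdsWithin_le_nhds
        · filter_upwards [self_mem_nhdsWithin] with θ hθ
          exact (hpp θ hθ.1 hθ.2).1
      have h3 := (hv0 s).comp h2
      rw [hw2]
      refine h3.congr' ?_
      filter_upwards [self_mem_nhdsWithin] with θ hθ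
      rw [hw1 θ hθ.2]; rfl
    · have h2 : ContinuousAt (fun θ => v (pp θ) s) θ := by
        obtain ⟨p0, p1⟩ := hpp θ hθ.1 h
        exact ContinuousAt.comp (f := pp) (g := fun p => v p s)
          ((hvc s).continuousAt (Ioo_mem_nhds p0 p1)) (cont_pp hθ.1 hθ.2)
      refine (h2.congr ?_).continuousWithinAt
      filter_upwards [Iio_mem_nhds h] with θ' hθ'
      rw [hw1 θ' hθ']
  -- the sums
  let M : ℂ → ℝ → Matrix (St n) (St n) ℂ := fun x θ =>
    DD (EC n) x 0 (alt (Complex.exp (θ * Complex.I)) n)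
  have hMw : ∀ x s, ContinuousOn (fun θ => (M x θ).mulVec (fun s => (w θ s : ℂ)) s)
      (Set.Ioc 0 (Real.pi / 3)) := by
    intro x s
    simp only [Matrix.mulVec, dotProduct]
    refine continuousOn_finsetSum _ fun s' _ => ?_
    refine ContinuousOn.mul ?_ (Complex.continuous_ofReal.comp_continuousOn (hwc s'))
    exact (cont_DDt' (EC n) x n s s').continuousOn
  let g : ℂ → ℝ → ℂ := fun x θ => ∑ s, (M x θ).mulVec (fun s => (w θ s : ℂ)) s
  have hg : ∀ x, ContinuousOn (g x) (Set.Ioc 0 (Real.pi / 3)) := fun x =>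
    continuousOn_finsetSum _ fun s _ => hMw x s
  have hsum : ∀ θ, 0 < θ → θ < Real.pi / 3 → ∑ s, (w θ s : ℂ) = 1 := by
    intro θ h0 h1
    rw [hw1 θ h1]
    have := (hvL (pp θ) (hpp θ h0 h1).1 (hpp θ h0 h1).2).2.1
    exact_mod_cast congrArg (fun r : ℝ => (r : ℂ)) this
  have hMw1 : ∀ x θ, 0 < θ → θ < Real.pi / 3 →
      (M x θ).mulVec (fun s => (w θ s : ℂ)) = aeval x (T θ) • (fun s => (w θ s : ℂ)) := by
    intro x θ h0 h1
    rw [hw1 θ h1]
    exact (hT θ ⟨h0, h1⟩).2.1 x
  have hg1 : ∀ x θ, 0 < θ → θ < Real.pi / 3 → g x θ = aeval x (T θ) := by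
    intro x θ h0 h1
    simp only [g]
    rw [hMw1 x θ h0 h1]
    simp only [Pi.smul_apply, smul_eq_mul]
    rw [← Finset.mul_sum, hsum θ h0 h1, mul_one]
  -- the limit
  have hlim : ∀ x s, (M x (Real.pi / 3)).mulVec (fun s => (w (Real.pi / 3) s : ℂ)) s =
      g x (Real.pi / 3) * (w (Real.pi / 3) s : ℂ) := by
    intro x s
    have hm : (Real.pi / 3) ∈ Set.Ioc 0 (Real.pi / 3) := ⟨by positivity, le_rfl⟩
    have a1 := hMw x s _ hm
    have a2 := ((hg x).mul (Complex.continuous_ofReal.comp_continuousOn (hwc s))) _ hm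
    rw [hmem, continuousWithinAt_insert_self] at a1 a2
    have : (𝓝[Set.Ioo 0 (Real.pi / 3)] (Real.pi / 3)).NeBot :=
      right_nhdsWithin_Ioo_neBot (by positivity)
    refine tendsto_nhds_unique_of_eventuallyEq a1 a2 ?_
    filter_upwards [self_mem_nhdsWithin] with θ hθ
    have := congrFun (hMw1 x θ hθ.1 hθ.2) s
    rw [this]
    simp only [Pi.mul_apply, Pi.smul_apply, smul_eq_mul, Function.comp]
    rw [hg1 x θ hθ.1 hθ.2]
  have hg2 : ∀ x, g x (Real.pi / 3) = aeval x base := by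
    intro x
    obtain ⟨r1, r2, r3, r4, r5, r6⟩ := hr n h1n
    have c1 := (hch _ (EC n) n h1n r1 r2).2 x
    set E := lay0 (EC n) 0 (n - 1) with hE
    have hδ : (fun s => (w (Real.pi / 3) s : ℂ)) = fun s => if s = st0 n then 1 else 0 := by
      rw [hw2]; funext s; by_cases h : s = st0 n <;> simp [h]
    have e1 : (M x (Real.pi / 3)).mulVec (fun s => if s = st0 n then 1 else 0) =
        g x (Real.pi / 3) • (fun s => if s = st0 n then 1 else 0) := by
      rw [← hδ]
      funext s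
      rw [hlim x s]; rfl
    have e2 : M x (Real.pi / 3) = DD (EC n) x 0 (alt uu n) := by
      simp only [M]
      rw [exp_third]
    have e3 : E.mulVec ((M x (Real.pi / 3)).mulVec (fun s => if s = st0 n then 1 else 0)) =
        (-2 * (1 - x) ^ 2 * (1 + x + x ^ 2) ^ (2 * n - 1)) •
          E.mulVec (fun s => if s = st0 n then 1 else 0) := by
      rw [Matrix.mulVec_mulVec, e2, c1, Matrix.smul_mulVec]
    rw [e1, Matrix.mulVec_smul] at e3
    have e4 : g x (Real.pi / 3) = -2 * (1 - x) ^ 2 * (1 + x + x ^ 2) ^ (2 * n - 1) := by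
      have : (g x (Real.pi / 3) - -2 * (1 - x) ^ 2 * (1 + x + x ^ 2) ^ (2 * n - 1)) •
          E.mulVec (fun s => if s = st0 n then 1 else 0) = 0 := by
        rw [sub_smul, e3, sub_self]
      rcases smul_eq_zero.1 this with h | h
      · exact sub_eq_zero.1 h
      · exact absurd h r5
    rw [e4, hbase]
    simp
  have hgT : ∀ x, ∀ θ ∈ Set.Ioc 0 (Real.pi / 3), g x θ = aeval x (T θ) := by
    intro x θ hθ
    rcases hθ.2.eq_or_lt with h | h
    · rw [h, hTb, hg2]
    · exact hg1 x θ hθ.1 h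
  have hRel : ∀ θ, 0 < θ → θ ≤ Real.pi / 3 → Rel n θ (T θ) := by
    intro θ h0 h1
    rcases h1.eq_or_lt with h | h
    · rw [h, hTb]
      exact (hb n h1n).1
    · obtain ⟨p0, p1⟩ := hpp θ h0 h
      obtain ⟨a1, a2, _, _, a3, a4⟩ := hvL (pp θ) p0 p1
      exact hrel n θ (v (pp θ)) (T θ) h1n h0 h a1 (hT θ ⟨h0, h⟩).1 (hT θ ⟨h0, h⟩).2.1
  refine ⟨T, fun θ => L (pp θ), hRel, ?_, hTb, fun θ h0 h1 => (hT θ ⟨h0, h1⟩).2.2, ?_, ?_⟩
  · intro k
    refine coeff_cont (4 * n) T _ (fun θ hθ => (hRel θ hθ.1 hθ.2).deg) (fun x => ?_) k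
    have h1 : ContinuousOn (fun θ => (g x θ).re) (Set.Ioc 0 (Real.pi / 3)) :=
      Complex.continuous_re.comp_continuousOn (hg x)
    refine h1.congr ?_
    intro θ hθ
    show _ = (g x θ).re
    rw [hgT x θ hθ, aeval_real]
  · refine ⟨2 / Real.pi * (1 / 4) ^ (2 * n - 2), by positivity, ?_⟩
    intro θ h0 h1
    have hθ0 : 0 < θ := by linarith [Real.pi_pos]
    obtain ⟨p0, p1⟩ := hpp θ hθ0 h1
    obtain ⟨_, _, _, b1, _, _⟩ := hvL (pp θ) p0 p1
    have s1 : 2 / Real.pi * (Real.pi / 3 - θ) ≤ Real.sin (Real.pi / 3 - θ) :=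
      Real.mul_le_sin (by linarith) (by linarith)
    have s2 := sin_pos2 hθ0 h1.le
    have s3 : Real.sin (Real.pi / 3 + θ) ≤ 1 := Real.sin_le_one _
    have s0 : 0 ≤ Real.sin (Real.pi / 3 - θ) :=
      Real.sin_nonneg_of_nonneg_of_le_pi (by linarith) (by linarith)
    have s4 : Real.sin (Real.pi / 3 - θ) ≤ pp θ := by
      unfold pp
      rw [le_div_iff₀ s2]
      nlinarith
    have s5 : Real.sin (Real.pi / 3 - θ) ≤ 1 / 2 := by
      rw [← Real.sin_pi_div_six]
      exact Real.sin_le_sin_of_le_of_le_pi_div_two (by linarith) (by linarith) (by linarith)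
    have s6 : √3 / 2 ≤ Real.sin (Real.pi / 3 + θ) := by
      have : Real.sin (Real.pi / 3 + θ) = Real.sin (Real.pi - (Real.pi / 3 + θ)) := by
        rw [Real.sin_pi_sub]
      rw [this, ← Real.sin_pi_div_three]
      exact Real.sin_le_sin_of_le_of_le_pi_div_two (by linarith) (by linarith) (by linarith)
    have s7 : pp θ ≤ 3 / 4 := by
      unfold pp
      rw [div_le_iff₀ s2]
      have : (4 / 3 : ℝ) ≤ √3 := by
        apply Real.le_sqrt_of_sq_le; norm_num
      nlinarith
    calc 2 / Real.pi * (1 / 4) ^ (2 * n - 2) * (Real.pi / 3 - θ)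
        = (2 / Real.pi * (Real.pi / 3 - θ)) * (1 / 4) ^ (2 * n - 2) := by ring
      _ ≤ pp θ * (1 - pp θ) ^ (2 * n - 2) := by
          apply mul_le_mul (s1.trans s4) _ (by positivity) p0.le
          exact pow_le_pow_left₀ (by norm_num) (by linarith) _
      _ ≤ L (pp θ) := b1
  · intro θ h0 h1
    obtain ⟨p0, p1⟩ := hpp θ h0 h1
    obtain ⟨a1, a2, a5, _, a3, a4⟩ := hvL (pp θ) p0 p1
    exact ⟨a5, v (pp θ), a1, a3⟩

end W96CL
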